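import Mathlib

set_option autoImplicit false

/-! # Dense planar frameworks without rigid sub-frameworks -/

namespace Pool.Agent.Results.MP_a65cb7_co.DixonPrism

open Topology

/-- Two realizations `p, q : V → ℂ = ℝ²` of `G` are equivalent if they give every edge the same
length. -/
def Equivalent {V : Type} (G : SimpleGraph V) (p q : V → ℂ) : Prop :=
  ∀ i j, G.Adj i j → dist (p i) (p j) = dist (q i) (q j)

/-- Two realizations are congruent if all pairwise distances agree. -/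
def Congruent {V : Type} (p q : V → ℂ) : Prop := ∀ i j, dist (p i) (p j) = dist (q i) (q j)

/-- The framework `(G, p)` is rigid: `p` has a neighbourhood `U` such that every `q ∈ U` equivalent
to `p` is congruent to `p`. -/
def Rigid {V : Type} (G : SimpleGraph V) (p : V → ℂ) : Prop :=
  ∃ U ∈ 𝓝 p, ∀ q ∈ U, Equivalent G p q → Congruent p q

/-- `p` has non-collinear neighbourhoods. -/
def NonCollinearNeighbourhoods {V : Type} (G : SimpleGraph V) (p : V → ℂ) : Prop :=
  ∀ v, ¬ Collinear ℝ (p '' G.neighborSet v)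

/-- Some subgraph of `G` on at least `k` vertices gives, with the restricted realization, a rigid
framework. -/
def HasRigidPart {V : Type} (k : ℕ) (G : SimpleGraph V) (p : V → ℂ) : Prop :=
  ∃ G' : G.Subgraph, k ≤ G'.verts.ncard ∧ Rigid G'.coe (fun v : G'.verts => p v)

/-! ## Flexes -/

theorem not_rigid_of_flex {V : Type} (G : SimpleGraph V) (p : V → ℂ) (q : ℝ → V → ℂ)
    (hc : Continuous q) (h0 : q 0 = p) (he : ∀ t, |t| < 1 → Equivalent G p (q t)) (i j : V)
    (hne : ∀ t, 0 < t → t < 1 → dist (q t i) (q t j) ≠ dist (p i) (p j) ∨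
      dist (q (-t) i) (q (-t) j) ≠ dist (p i) (p j)) : ¬ Rigid G p := by
  rintro ⟨U, hU, h⟩
  have h1 : q ⁻¹' U ∈ 𝓝 (0 : ℝ) := hc.continuousAt.preimage_mem_nhds (by rw [h0]; exact hU)
  obtain ⟨δ, hδ, hball⟩ := Metric.mem_nhds_iff.mp h1
  set t : ℝ := min (δ / 2) (1 / 2) with ht
  have ht0 : 0 < t := lt_min (by linarith) (by norm_num)
  have htδ : t < δ := lt_of_le_of_lt (min_le_left _ _) (by linarith)
  have ht1 : t < 1 := lt_of_le_of_lt (min_le_right _ _) (by norm_num)
  rcases hne t ht0 ht1 with h2 | h2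
  · have h3 : q t ∈ U := hball (by
      rw [Metric.mem_ball, Real.dist_eq, sub_zero, abs_of_pos ht0]; exact htδ)
    exact h2 (h (q t) h3 (he t (by rw [abs_of_pos ht0]; exact ht1)) i j).symm
  · have h3 : q (-t) ∈ U := hball (by
      rw [Metric.mem_ball, Real.dist_eq, sub_zero, abs_neg, abs_of_pos ht0]; exact htδ)
    exact h2 (h (q (-t)) h3 (he (-t) (by rw [abs_neg, abs_of_pos ht0]; exact ht1)) i j).symm

/-- the flexing Dixon points: `(0, i) ↦ √((i+1)² + t)`, `(1, i) ↦ √((i+1)² - t) · I` -/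
noncomputable def P {m : ℕ} (t : ℝ) (u : Bool × Fin m) : ℂ :=
  if u.1 then ((Real.sqrt (((u.2 : ℕ) + 1 : ℝ) ^ 2 - t) : ℝ) : ℂ) * Complex.I
  else ((Real.sqrt (((u.2 : ℕ) + 1 : ℝ) ^ 2 + t) : ℝ) : ℂ)

theorem P_cont {m : ℕ} (u : Bool × Fin m) : Continuous (fun t => P t u) := by
  unfold P
  split_ifs <;> fun_prop

theorem P_zero_false {m : ℕ} (i : Fin m) : P 0 (false, i) = (((i : ℕ) + 1 : ℝ) : ℂ) := by
  unfold P
  simp only [Bool.false_eq_true, if_false, add_zero]
  rw [Real.sqrt_sq (by positivity)]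

theorem P_zero_true {m : ℕ} (i : Fin m) : P 0 (true, i) = (((i : ℕ) + 1 : ℝ) : ℂ) * Complex.I := by
  unfold P
  simp only [if_true, sub_zero]
  rw [Real.sqrt_sq (by positivity)]

theorem sq_ge {m : ℕ} (i : Fin m) : (1 : ℝ) ≤ ((i : ℕ) + 1 : ℝ) ^ 2 := by
  have : (0 : ℝ) ≤ (i : ℕ) := Nat.cast_nonneg _
  nlinarith

theorem dist_cross {m : ℕ} (t : ℝ) (ht : |t| < 1) (i j : Fin m) :
    dist (P t (false, i)) (P t (true, j)) = Real.sqrt (((i : ℕ) + 1 : ℝ) ^ 2 + ((j : ℕ) + 1 : ℝ) ^ 2) := by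
  rw [abs_lt] at ht
  have h1 := sq_ge i
  have h2 := sq_ge j
  unfold P
  simp only [Bool.false_eq_true, if_false, if_true]
  rw [Complex.dist_eq, Complex.norm_def, Complex.normSq_apply]
  congr 1
  simp only [Complex.sub_re, Complex.ofReal_re, Complex.mul_re, Complex.I_re, mul_zero,
    Complex.ofReal_im, Complex.I_im, mul_one, sub_self, Complex.sub_im, Complex.mul_im, add_zero,
    zero_mul, zero_sub, sub_zero]
  rw [Real.mul_self_sqrt (by linarith), neg_mul_neg, Real.mul_self_sqrt (by linarith)]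
  ring

/-- adjacency in the complete bipartite graph between `{0} × Fin m` and `{1} × Fin m` -/
def cadj {m : ℕ} (u v : Bool × Fin m) : Prop := u.1 ≠ v.1

theorem dist_cadj {m : ℕ} (t : ℝ) (ht : |t| < 1) (u v : Bool × Fin m) (h : cadj u v) :
    dist (P t u) (P t v) = dist (P 0 u) (P 0 v) := by
  have h0 : |(0 : ℝ)| < 1 := by simp
  rcases u with ⟨s, i⟩
  rcases v with ⟨s', j⟩
  cases s <;> cases s'
  · exact absurd rfl h
  · rw [dist_cross t ht, dist_cross 0 h0]
  · rw [dist_comm, dist_cross t ht, dist_comm, dist_cross 0 h0]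
  · exact absurd rfl h

/-- two points of the same side do move with respect to each other -/
theorem sqrt_diff_ne (a b s : ℝ) (ha : 0 ≤ a) (hb : 0 ≤ b) (hab : a ≠ b) (hs : s ≠ 0)
    (h1 : 0 ≤ a + s) (h2 : 0 ≤ b + s) :
    |Real.sqrt (a + s) - Real.sqrt (b + s)| ≠ |Real.sqrt a - Real.sqrt b| := by
  intro h
  set x := Real.sqrt (a + s)
  set y := Real.sqrt (b + s)
  set z := Real.sqrt a
  set w := Real.sqrt b
  have hx : x * x = a + s := Real.mul_self_sqrt h1
  have hy : y * y = b + s := Real.mul_self_sqrt h2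
  have hz : z * z = a := Real.mul_self_sqrt ha
  have hw : w * w = b := Real.mul_self_sqrt hb
  have hx0 : 0 ≤ x := Real.sqrt_nonneg _
  have hy0 : 0 ≤ y := Real.sqrt_nonneg _
  have hz0 : 0 ≤ z := Real.sqrt_nonneg _
  have hw0 : 0 ≤ w := Real.sqrt_nonneg _
  have hsq : (x - y) ^ 2 = (z - w) ^ 2 := sq_eq_sq_iff_abs_eq_abs _ _ |>.mpr h
  -- (x² - y²) = (z² - w²), hence the sums agree as well
  have hd : (x - y) * (x + y) = (z - w) * (z + w) := by
    have e1 : (x - y) * (x + y) = x * x - y * y := by ring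
    have e2 : (z - w) * (z + w) = z * z - w * w := by ring
    rw [e1, e2, hx, hy, hz, hw]; ring
  have hzw : z - w ≠ 0 := by
    intro h3
    apply hab
    have : z = w := by linarith
    rw [← hz, ← hw, this]
  have hsum : (x + y) ^ 2 = (z + w) ^ 2 := by
    have e3 : (x - y) ^ 2 * (x + y) ^ 2 = (z - w) ^ 2 * (z + w) ^ 2 := by
      have : ((x - y) * (x + y)) ^ 2 = ((z - w) * (z + w)) ^ 2 := by rw [hd]
      rw [mul_pow, mul_pow] at this
      exact this
    rw [hsq] at e3
    exact mul_left_cancel₀ (pow_ne_zero 2 hzw) e3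
  -- x² + y² = z² + w²
  have : 2 * s = 0 := by nlinarith
  exact hs (by linarith)

theorem dist_same_ne {m : ℕ} (t : ℝ) (ht0 : 0 < t) (ht : t < 1) (u v : Bool × Fin m)
    (h1 : u.1 = v.1) (h2 : u ≠ v) : dist (P t u) (P t v) ≠ dist (P 0 u) (P 0 v) := by
  rcases u with ⟨s, i⟩
  rcases v with ⟨s', j⟩
  simp only at h1
  subst h1
  have hij : i ≠ j := fun h => h2 (by rw [h])
  have hij' : ((i : ℕ) + 1 : ℝ) ^ 2 ≠ ((j : ℕ) + 1 : ℝ) ^ 2 := by
    intro h
    have h3 : ((i : ℕ) + 1 : ℝ) = ((j : ℕ) + 1 : ℝ) := by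
      have e1 : (0 : ℝ) ≤ (i : ℕ) + 1 := by positivity
      have e2 : (0 : ℝ) ≤ (j : ℕ) + 1 := by positivity
      exact (pow_left_inj₀ e1 e2 (by norm_num)).mp h
    have h4 : ((i : ℕ) : ℝ) = ((j : ℕ) : ℝ) := by linarith
    exact hij (Fin.ext (by exact_mod_cast h4))
  have e1 := sq_ge i
  have e2 := sq_ge j
  cases s
  · have key := sqrt_diff_ne _ _ t (by positivity) (by positivity) hij' ht0.ne' (by linarith)
      (by linarith)
    unfold P
    simp only [Bool.false_eq_true, if_false, add_zero]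
    rw [Complex.dist_eq, Complex.dist_eq, ← Complex.ofReal_sub, ← Complex.ofReal_sub,
      Complex.norm_real, Complex.norm_real]
    exact key
  · have key := sqrt_diff_ne _ _ (-t) (by positivity) (by positivity) hij' (by linarith)
      (by linarith) (by linarith)
    unfold P
    simp only [if_true, sub_zero]
    rw [Complex.dist_eq, Complex.dist_eq, ← sub_mul, ← sub_mul, norm_mul, norm_mul,
      Complex.norm_I, mul_one, mul_one, ← Complex.ofReal_sub, ← Complex.ofReal_sub,
      Complex.norm_real, Complex.norm_real]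
    exact key

theorem P_inj {m : ℕ} : Function.Injective (P 0 : Bool × Fin m → ℂ) := by
  rintro ⟨s, i⟩ ⟨s', j⟩ h
  cases s <;> cases s'
  · rw [P_zero_false, P_zero_false] at h
    have h1 : ((i : ℕ) + 1 : ℝ) = ((j : ℕ) + 1 : ℝ) := by exact_mod_cast h
    have h2 : ((i : ℕ) : ℝ) = ((j : ℕ) : ℝ) := by linarith
    rw [Fin.ext (by exact_mod_cast h2 : (i : ℕ) = j)]
  · rw [P_zero_false, P_zero_true] at h
    have := congrArg Complex.re h
    simp at this
    have h3 : (0 : ℝ) ≤ (i : ℕ) := Nat.cast_nonneg _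
    linarith
  · rw [P_zero_false, P_zero_true] at h
    have := congrArg Complex.re h
    simp at this
    have h3 : (0 : ℝ) ≤ (j : ℕ) := Nat.cast_nonneg _
    linarith
  · rw [P_zero_true, P_zero_true] at h
    have h0 := mul_right_cancel₀ Complex.I_ne_zero h
    have h1 : ((i : ℕ) + 1 : ℝ) = ((j : ℕ) + 1 : ℝ) := by exact_mod_cast h0
    have h2 : ((i : ℕ) : ℝ) = ((j : ℕ) : ℝ) := by linarith
    rw [Fin.ext (by exact_mod_cast h2 : (i : ℕ) = j)]

/-- rotating one summand changes the length of a sum -/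
theorem rotate (a b : ℂ) (ha : a ≠ 0) (hb : b ≠ 0) (t : ℝ) (ht0 : 0 < t) (ht1 : t < 1) :
    ‖Complex.exp ((t : ℂ) * Complex.I) * a + b‖ ≠ ‖a + b‖ ∨
      ‖Complex.exp (((-t : ℝ) : ℂ) * Complex.I) * a + b‖ ≠ ‖a + b‖ := by
  by_contra hcon
  push Not at hcon
  obtain ⟨h1, h2⟩ := hcon
  have g1 : Complex.normSq (Complex.exp ((t : ℂ) * Complex.I) * a + b) = Complex.normSq (a + b) := by
    rw [Complex.normSq_eq_norm_sq, Complex.normSq_eq_norm_sq, h1]
  have g2 : Complex.normSq (Complex.exp (((-t : ℝ) : ℂ) * Complex.I) * a + b)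
      = Complex.normSq (a + b) := by
    rw [Complex.normSq_eq_norm_sq, Complex.normSq_eq_norm_sq, h2]
  have r1 : (Complex.exp ((t : ℂ) * Complex.I)).re = Real.cos t := Complex.exp_ofReal_mul_I_re t
  have i1 : (Complex.exp ((t : ℂ) * Complex.I)).im = Real.sin t := Complex.exp_ofReal_mul_I_im t
  have r2 : (Complex.exp (((-t : ℝ) : ℂ) * Complex.I)).re = Real.cos t := by
    rw [Complex.exp_ofReal_mul_I_re, Real.cos_neg]
  have i2 : (Complex.exp (((-t : ℝ) : ℂ) * Complex.I)).im = -Real.sin t := by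
    rw [Complex.exp_ofReal_mul_I_im, Real.sin_neg]
  rw [Complex.normSq_apply, Complex.normSq_apply, Complex.add_re, Complex.add_im, Complex.mul_re,
    Complex.mul_im, r1, i1, Complex.add_re, Complex.add_im] at g1
  rw [Complex.normSq_apply, Complex.normSq_apply, Complex.add_re, Complex.add_im, Complex.mul_re,
    Complex.mul_im, r2, i2, Complex.add_re, Complex.add_im] at g2
  have hcs := Real.sin_sq_add_cos_sq t
  have hs : 0 < Real.sin t := Real.sin_pos_of_pos_of_lt_pi ht0 (by linarith [Real.pi_gt_three])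
  have hc : Real.cos t < 1 := by
    have h3 : Real.cos t ≠ 1 := by
      intro h3
      rw [h3] at hcs
      nlinarith
    exact lt_of_le_of_ne (Real.cos_le_one t) h3
  set c := Real.cos t
  set s := Real.sin t
  have hX : (c - 1) * (a.re * b.re + a.im * b.im) = 0 := by
    have e : (a.re ^ 2 + a.im ^ 2) * (s ^ 2 + c ^ 2 - 1) = 0 := by rw [hcs]; ring
    nlinarith
  have hY : s * (a.re * b.im - a.im * b.re) = 0 := by nlinarith
  have hX' : a.re * b.re + a.im * b.im = 0 := by
    rcases mul_eq_zero.mp hX with h | h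
    · linarith
    · exact h
  have hY' : a.re * b.im - a.im * b.re = 0 := by
    rcases mul_eq_zero.mp hY with h | h
    · linarith
    · exact h
  have hprod : Complex.normSq a * Complex.normSq b = 0 := by
    rw [Complex.normSq_apply, Complex.normSq_apply]
    have e : (a.re * a.re + a.im * a.im) * (b.re * b.re + b.im * b.im)
        = (a.re * b.re + a.im * b.im) ^ 2 + (a.re * b.im - a.im * b.re) ^ 2 := by ring
    rw [e, hX', hY']; ring
  rcases mul_eq_zero.mp hprod with h | h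
  · exact ha (Complex.normSq_eq_zero.mp h)
  · exact hb (Complex.normSq_eq_zero.mp h)

/-! ## The frameworks -/

/-- the translation vector -/
noncomputable def w : ℂ := ⟨1 / 2, 1 / 2⟩

/-- the two translations -/
noncomputable def σ (b : Bool) : ℂ := if b then w else 0

theorem w_ne : w ≠ 0 := by
  intro h
  have := congrArg Complex.re h
  simp [w] at this

theorem σ_sub_ne (a b : Bool) (h : a ≠ b) : σ a - σ b ≠ 0 := by
  have := w_ne
  cases a <;> cases b <;> simp_all [σ]

/-- the Cartesian product of the complete bipartite graph `K_{m,m}` with `K_2`, with the vertices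
numbered by `Fin n` through `e` -/
def Gr {n m : ℕ} (e : Fin n ≃ (Bool × Fin m) × Bool) : SimpleGraph (Fin n) where
  Adj x y := (cadj (e x).1 (e y).1 ∧ (e x).2 = (e y).2) ∨ ((e x).1 = (e y).1 ∧ (e x).2 ≠ (e y).2)
  symm := ⟨by
    rintro x y (⟨h1, h2⟩ | ⟨h1, h2⟩)
    · exact Or.inl ⟨Ne.symm h1, h2.symm⟩
    · exact Or.inr ⟨h1.symm, Ne.symm h2⟩⟩
  loopless := ⟨by
    rintro x (⟨h1, -⟩ | ⟨-, h2⟩)
    · exact h1 rfl
    · exact h2 rfl⟩

/-- the realization: a Dixon configuration and a translate of it -/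
noncomputable def real {n m : ℕ} (e : Fin n ≃ (Bool × Fin m) × Bool) (x : Fin n) : ℂ :=
  P 0 (e x).1 + σ (e x).2

theorem flex1 {n m : ℕ} (e : Fin n ≃ (Bool × Fin m) × Bool) (G' : (Gr e).Subgraph)
    (x y : G'.verts) (hv : (e x).2 = (e y).2) (hs : (e x).1.1 = (e y).1.1)
    (hu : (e x).1 ≠ (e y).1) : ¬ Rigid G'.coe (fun v : G'.verts => real e v) := by
  apply not_rigid_of_flex G'.coe _ (fun t v => P t (e v).1 + σ (e v).2) ?_ rfl ?_ x y ?_
  · exact continuous_pi fun v => (P_cont _).add continuous_const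
  · intro t ht v w hvw
    have hG : (Gr e).Adj v w := G'.adj_sub hvw
    simp only [real]
    rcases hG with ⟨h1, h2⟩ | ⟨h1, h2⟩
    · rw [h2, dist_add_right, dist_add_right, dist_cadj t ht _ _ h1]
    · rw [h1, dist_add_left, dist_add_left]
  · intro t ht0 ht1
    left
    beta_reduce
    rw [hv, dist_add_right, dist_add_right]
    exact dist_same_ne t ht0 ht1 _ _ hs hu

theorem flex3 {n m : ℕ} (e : Fin n ≃ (Bool × Fin m) × Bool) (G' : (Gr e).Subgraph)
    (x y : G'.verts) (h1 : (e x).1 ≠ (e y).1) (h2 : (e x).2 ≠ (e y).2) :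
    ¬ Rigid G'.coe (fun v : G'.verts => real e v) := by
  apply not_rigid_of_flex G'.coe _
    (fun t v => Complex.exp ((t : ℂ) * Complex.I) * P 0 (e v).1 + σ (e v).2) ?_ ?_ ?_ x y ?_
  · refine continuous_pi fun v => ?_
    fun_prop
  · funext v
    simp [real]
  · intro t ht v w hvw
    have hG : (Gr e).Adj v w := G'.adj_sub hvw
    simp only [real]
    rcases hG with ⟨h1, h2⟩ | ⟨h1, h2⟩
    · rw [h2, dist_add_right, dist_add_right, Complex.dist_eq, Complex.dist_eq, ← mul_sub, norm_mul,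
        Complex.norm_exp_ofReal_mul_I, one_mul]
    · rw [h1, dist_add_left, dist_add_left]
  · intro t ht0 ht1
    simp only [real]
    have key := rotate (P 0 (e x).1 - P 0 (e y).1) (σ (e x).2 - σ (e y).2)
      (sub_ne_zero.mpr (fun h => h1 (P_inj h))) (σ_sub_ne _ _ h2) t ht0 ht1
    have e1 : ∀ z : ℂ, dist (z * P 0 (e x).1 + σ (e x).2) (z * P 0 (e y).1 + σ (e y).2)
        = ‖z * (P 0 (e x).1 - P 0 (e y).1) + (σ (e x).2 - σ (e y).2)‖ := by
      intro z
      rw [Complex.dist_eq]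
      congr 1
      ring
    have e2 : dist (P 0 (e x).1 + σ (e x).2) (P 0 (e y).1 + σ (e y).2)
        = ‖(P 0 (e x).1 - P 0 (e y).1) + (σ (e x).2 - σ (e y).2)‖ := by
      rw [Complex.dist_eq]
      congr 1
      ring
    rw [e1, e1, e2]
    exact key

theorem no_rigid {n m : ℕ} (e : Fin n ≃ (Bool × Fin m) × Bool) :
    ¬ HasRigidPart 3 (Gr e) (real e) := by
  rintro ⟨G', hcard, hrigid⟩
  -- no two vertices differ in both coordinates
  have hA : ∀ x y : G'.verts, (e x).1 = (e y).1 ∨ (e x).2 = (e y).2 := by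
    intro x y
    by_contra hcon
    push Not at hcon
    exact flex3 e G' x y hcon.1 hcon.2 hrigid
  -- three vertices
  obtain ⟨T, hT, hT3⟩ := Set.exists_subset_card_eq (s := G'.verts) (n := 3) hcard
  obtain ⟨x, y, z, hxy, hxz, hyz, rfl⟩ := Set.ncard_eq_three.mp hT3
  have hx : x ∈ G'.verts := hT (by simp)
  have hy : y ∈ G'.verts := hT (by simp)
  have hz : z ∈ G'.verts := hT (by simp)
  have a1 := hA ⟨x, hx⟩ ⟨y, hy⟩
  have a2 := hA ⟨x, hx⟩ ⟨z, hz⟩
  have a3 := hA ⟨y, hy⟩ ⟨z, hz⟩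
  simp only at a1 a2 a3
  have hne : ∀ a b : Fin n, a ≠ b → (e a).1 = (e b).1 → (e a).2 ≠ (e b).2 :=
    fun a b hab h1 h2 => hab (e.injective (Prod.ext h1 h2))
  have hne' : ∀ a b : Fin n, a ≠ b → (e a).2 = (e b).2 → (e a).1 ≠ (e b).1 :=
    fun a b hab h1 h2 => hab (e.injective (Prod.ext h2 h1))
  have hbool : ∀ a b c : Bool, a = b ∨ a = c ∨ b = c := by decide
  -- all three lie in the same copy
  have hB : (e x).2 = (e y).2 ∧ (e x).2 = (e z).2 := by
    by_cases c1 : (e x).2 = (e y).2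
    · refine ⟨c1, ?_⟩
      rcases a2 with a2 | a2
      · rcases a3 with a3 | a3
        · exact absurd (a2.trans a3.symm) (hne' x y hxy c1)
        · exact c1.trans a3
      · exact a2
    · exfalso
      rcases a1 with a1 | a1
      · rcases hbool (e x).2 (e y).2 (e z).2 with h | h | h
        · exact c1 h
        · rcases a3 with a3 | a3
          · exact hne' x z hxz h (a1.trans a3)
          · exact c1 (h.trans a3.symm)
        · rcases a2 with a2 | a2
          · exact hne' y z hyz h (a1.symm.trans a2)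
          · exact c1 (a2.trans h.symm)
      · exact c1 a1
  obtain ⟨b1, b2⟩ := hB
  rcases hbool (e x).1.1 (e y).1.1 (e z).1.1 with h | h | h
  · exact flex1 e G' ⟨x, hx⟩ ⟨y, hy⟩ b1 h (hne' x y hxy b1) hrigid
  · exact flex1 e G' ⟨x, hx⟩ ⟨z, hz⟩ b2 h (hne' x z hxz b2) hrigid
  · exact flex1 e G' ⟨y, hy⟩ ⟨z, hz⟩ (b1.symm.trans b2) h (hne' y z hyz (b1.symm.trans b2)) hrigid

/-- the coordinates of the Dixon points are integers -/
theorem P_int {m : ℕ} (u : Bool × Fin m) : ∃ k : ℤ, (P 0 u).re = k := by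
  rcases u with ⟨s, i⟩
  cases s
  · refine ⟨(i : ℕ) + 1, ?_⟩
    rw [P_zero_false, Complex.ofReal_re]
    push_cast
    rfl
  · refine ⟨0, ?_⟩
    rw [P_zero_true]
    simp

theorem real_inj {n m : ℕ} (e : Fin n ≃ (Bool × Fin m) × Bool) :
    Function.Injective (real e) := by
  intro x y h
  unfold real at h
  apply e.injective
  by_cases hb : (e x).2 = (e y).2
  · rw [hb] at h
    exact Prod.ext (P_inj (add_right_cancel h)) hb
  · exfalso
    obtain ⟨k, hk⟩ := P_int (e x).1
    obtain ⟨l, hl⟩ := P_int (e y).1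
    have h1 := congrArg Complex.re h
    rw [Complex.add_re, Complex.add_re, hk, hl] at h1
    have h2 : (2 * k - 2 * l = 1) ∨ (2 * k - 2 * l = -1) := by
      revert h1 hb
      rcases (e x).2 with _ | _ <;> rcases (e y).2 with _ | _
      · simp
      · intro _ h1
        right
        simp only [σ, w, Bool.false_eq_true, if_false, if_true, Complex.zero_re] at h1
        have : (2 * k - 2 * l : ℝ) = -1 + 2 := by linarith
        have h3 : ((2 * k - 2 * l : ℤ) : ℝ) = ((1 : ℤ) : ℝ) := by push_cast; linarith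
        have h4 : 2 * k - 2 * l = 1 := by exact_mod_cast h3
        omega
      · intro _ h1
        left
        simp only [σ, w, Bool.false_eq_true, if_false, if_true, Complex.zero_re] at h1
        have h3 : ((2 * k - 2 * l : ℤ) : ℝ) = ((-1 : ℤ) : ℝ) := by push_cast; linarith
        have h4 : 2 * k - 2 * l = -1 := by exact_mod_cast h3
        omega
      · simp
    omega

theorem noncollinear {n m : ℕ} (hm : 2 ≤ m) (e : Fin n ≃ (Bool × Fin m) × Bool) :
    NonCollinearNeighbourhoods (Gr e) (real e) := by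
  intro x hcol
  rcases hex : e x with ⟨⟨s, i⟩, b⟩
  set j0 : Fin m := ⟨0, by omega⟩ with hj0
  set j1 : Fin m := ⟨1, by omega⟩ with hj1
  have n0 : e.symm ((!s, j0), b) ∈ (Gr e).neighborSet x := by
    rw [SimpleGraph.mem_neighborSet]
    left
    rw [Equiv.apply_symm_apply, hex]
    exact ⟨by unfold cadj; cases s <;> simp, rfl⟩
  have n1 : e.symm ((!s, j1), b) ∈ (Gr e).neighborSet x := by
    rw [SimpleGraph.mem_neighborSet]
    left
    rw [Equiv.apply_symm_apply, hex]
    exact ⟨by unfold cadj; cases s <;> simp, rfl⟩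
  have n2 : e.symm ((s, i), !b) ∈ (Gr e).neighborSet x := by
    rw [SimpleGraph.mem_neighborSet]
    right
    rw [Equiv.apply_symm_apply, hex]
    exact ⟨rfl, by cases b <;> simp⟩
  have m0 := Set.mem_image_of_mem (real e) n0
  have m1 := Set.mem_image_of_mem (real e) n1
  have m2 := Set.mem_image_of_mem (real e) n2
  obtain ⟨v, hv⟩ := (collinear_iff_of_mem m0).mp hcol
  obtain ⟨r1, hr1⟩ := hv _ m1
  obtain ⟨r2, hr2⟩ := hv _ m2
  unfold real at hr1 hr2
  rw [Equiv.apply_symm_apply, Equiv.apply_symm_apply] at hr1 hr2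
  simp only [vadd_eq_add] at hr1 hr2
  have hi : (0 : ℝ) ≤ (i : ℕ) := Nat.cast_nonneg _
  have re1 := congrArg Complex.re hr1
  have im1 := congrArg Complex.im hr1
  have re2 := congrArg Complex.re hr2
  have im2 := congrArg Complex.im hr2
  cases s
  · simp only [Bool.not_false, P_zero_true, P_zero_false, Complex.add_re, Complex.add_im,
      Complex.smul_re, Complex.smul_im, smul_eq_mul, Complex.mul_re, Complex.mul_im,
      Complex.ofReal_re, Complex.ofReal_im, Complex.I_re, Complex.I_im, hj0, hj1] at re1 im1 re2 im2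
    norm_num at re1 im1 re2 im2
    have hr : r1 ≠ 0 := by
      rintro rfl
      linarith
    have hvre : v.re = 0 := by
      rcases re1 with h | h
      · exact absurd h hr
      · exact h
    rw [hvre] at re2
    cases b <;> simp [σ, w] at re2 <;> linarith
  · simp only [Bool.not_true, P_zero_true, P_zero_false, Complex.add_re, Complex.add_im,
      Complex.smul_re, Complex.smul_im, smul_eq_mul, Complex.mul_re, Complex.mul_im,
      Complex.ofReal_re, Complex.ofReal_im, Complex.I_re, Complex.I_im, hj0, hj1] at re1 im1 re2 im2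
    norm_num at re1 im1 re2 im2
    have hr : r1 ≠ 0 := by
      rintro rfl
      linarith
    have hvim : v.im = 0 := by
      rcases im1 with h | h
      · exact absurd h hr
      · exact h
    rw [hvim] at im2
    cases b <;> simp [σ, w] at im2 <;> linarith

theorem edges {n m : ℕ} (e : Fin n ≃ (Bool × Fin m) × Bool) :
    2 * m ^ 2 ≤ (Gr e).edgeSet.ncard := by
  let f : Bool × Fin m × Fin m → Sym2 (Fin n) := fun a =>
    s(e.symm ((false, a.2.1), a.1), e.symm ((true, a.2.2), a.1))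
  have hf : Function.Injective f := by
    rintro ⟨b, i, j⟩ ⟨b', i', j'⟩ h
    simp only [f, Sym2.eq_iff, EmbeddingLike.apply_eq_iff_eq, Prod.mk.injEq, true_and,
      Bool.false_eq_true, false_and, and_false, or_false] at h
    obtain ⟨⟨h1, h2⟩, h3, -⟩ := h
    rw [h1, h2, h3]
  have hsub : Set.range f ⊆ (Gr e).edgeSet := by
    rintro _ ⟨⟨b, i, j⟩, rfl⟩
    rw [SimpleGraph.mem_edgeSet]
    left
    rw [Equiv.apply_symm_apply, Equiv.apply_symm_apply]
    exact ⟨by simp [cadj], rfl⟩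
  have hc : (Set.range f).ncard = 2 * m ^ 2 := by
    rw [← Set.image_univ, Set.ncard_image_of_injective _ hf, Set.ncard_univ, Nat.card_eq_fintype_card]
    simp [Fintype.card_prod]
    ring
  rw [← hc]
  exact Set.ncard_le_ncard hsub (Set.toFinite _)

theorem example_framework (m : ℕ) (hm : 2 ≤ m) :
    ∃ (G : SimpleGraph (Fin (4 * m))) (p : Fin (4 * m) → ℂ), Function.Injective p ∧
      2 * m ^ 2 ≤ G.edgeSet.ncard ∧ NonCollinearNeighbourhoods G p ∧ ¬ HasRigidPart 3 G p := by
  have hcard : Fintype.card ((Bool × Fin m) × Bool) = 4 * m := by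
    simp [Fintype.card_prod]
    ring
  obtain ⟨e⟩ : Nonempty (Fin (4 * m) ≃ (Bool × Fin m) × Bool) :=
    ⟨(Fintype.equivFinOfCardEq hcard).symm⟩
  exact ⟨Gr e, real e, real_inj e, edges e, noncollinear hm e, no_rigid e⟩

/-- **Question Q1 of MP_a65cb7_co has a negative answer.** -/
theorem result :
    (∀ m : ℕ, 2 ≤ m → ∃ (G : SimpleGraph (Fin (4 * m))) (p : Fin (4 * m) → ℂ),
      Function.Injective p ∧ ((4 * m : ℕ) : ℝ) ^ 2 / 8 ≤ (G.edgeSet.ncard : ℝ) ∧
      NonCollinearNeighbourhoods G p ∧ ¬ HasRigidPart 3 G p) ∧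
    ¬ (∀ c : ℝ, 0 < c → ∃ n₀ : ℕ, ∀ n : ℕ, n₀ ≤ n → ∀ (G : SimpleGraph (Fin n)) (p : Fin n → ℂ),
      c * (n : ℝ) ^ (7 / 6 : ℝ) ≤ (G.edgeSet.ncard : ℝ) → NonCollinearNeighbourhoods G p →
      HasRigidPart 4 G p) := by
  have key : ∀ m : ℕ, 2 ≤ m → ∃ (G : SimpleGraph (Fin (4 * m))) (p : Fin (4 * m) → ℂ),
      Function.Injective p ∧ ((4 * m : ℕ) : ℝ) ^ 2 / 8 ≤ (G.edgeSet.ncard : ℝ) ∧
      NonCollinearNeighbourhoods G p ∧ ¬ HasRigidPart 3 G p := by
    intro m hm
    obtain ⟨G, p, h1, h2, h3, h4⟩ := example_framework m hm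
    refine ⟨G, p, h1, ?_, h3, h4⟩
    have h5 : ((2 * m ^ 2 : ℕ) : ℝ) ≤ (G.edgeSet.ncard : ℝ) := by exact_mod_cast h2
    push_cast at h5 ⊢
    linarith
  refine ⟨key, ?_⟩
  intro h
  obtain ⟨n₀, hn₀⟩ := h (1 / 8) (by norm_num)
  obtain ⟨G, p, -, h2, h3, h4⟩ := key (max 2 n₀) (le_max_left _ _)
  have hn : n₀ ≤ 4 * max 2 n₀ := le_trans (le_max_right 2 n₀) (by omega)
  have h5 : (1 / 8 : ℝ) * ((4 * max 2 n₀ : ℕ) : ℝ) ^ (7 / 6 : ℝ) ≤ (G.edgeSet.ncard : ℝ) := by
    refine le_trans ?_ h2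
    have h6 : (1 : ℝ) ≤ ((4 * max 2 n₀ : ℕ) : ℝ) := by
      have : 1 ≤ 4 * max 2 n₀ := by
        have := le_max_left 2 n₀
        omega
      exact_mod_cast this
    have h7 : ((4 * max 2 n₀ : ℕ) : ℝ) ^ (7 / 6 : ℝ) ≤ ((4 * max 2 n₀ : ℕ) : ℝ) ^ (2 : ℝ) :=
      Real.rpow_le_rpow_of_exponent_le h6 (by norm_num)
    rw [Real.rpow_two] at h7
    linarith
  obtain ⟨G', hG', hr⟩ := hn₀ _ hn G p h5 h3
  exact h4 ⟨G', by omega, hr⟩

end Pool.Agent.Results.MP_a65cb7_co.DixonPrism
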